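import Pool.Agent.MP_3ee8cb_gt.DNP.Kit

/-! A crude Poincare inequality on spheres. -/

namespace Pool.Agent.MP_3ee8cb_gt.DNP

open Set MeasureTheory Metric
open scoped ENNReal RealInnerProductSpace

variable {E : Type} [NormedAddCommGroup E] [InnerProductSpace ℝ E]

/-- `ρ a b` is the distance between the images of the directions `a` and `b`. -/
structure Dat (ρ : E → E → ℝ) (g₁ g₂ : E → ℝ) (D : ℝ) : Prop where
  pos : ∀ a b, a ≠ 0 → b ≠ 0 → 0 ≤ ρ a b
  le : ∀ a b, a ≠ 0 → b ≠ 0 → ρ a b ≤ D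
  self : ∀ a, a ≠ 0 → ρ a a = 0
  hom : ∀ (r s : ℝ) a b, r ≠ 0 → s ≠ 0 → a ≠ 0 → b ≠ 0 → ρ (r • a) (s • b) = ρ a b
  c1 : ContinuousOn g₁ (sphere 0 1)
  c2 : ContinuousOn g₂ (sphere 0 1)
  p2 : ∀ b, ‖b‖ = 1 → 0 ≤ g₂ b
  der : ∀ a b, ‖a‖ = 1 → ‖b‖ = 1 → ∃ L : E →L[ℝ] ℝ, HasFDerivAt (fun u => ρ a u ^ 2 / 2) L b ∧
    ∀ e, |L e| ≤ ρ a b * (g₁ b + g₂ b) * ‖e‖

/-- The majorant. -/
noncomputable def mj (g₁ g₂ : E → ℝ) (D : ℝ) (z : E) : ℝ :=
  32 * (g₁ (‖z‖⁻¹ • z) ^ 2 + D * g₂ (‖z‖⁻¹ • z))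

theorem unit {z : E} (hz : z ≠ 0) : ‖‖z‖⁻¹ • z‖ = 1 := by
  rw [norm_smul, norm_inv, norm_norm, inv_mul_cancel₀ (norm_ne_zero_iff.2 hz)]

namespace Dat

variable {ρ : E → E → ℝ} {g₁ g₂ : E → ℝ} {D : ℝ} (h : Dat ρ g₁ g₂ D)
include h

theorem der' {a b : E} (ha : a ≠ 0) (hb : b ≠ 0) : ∃ L : E →L[ℝ] ℝ,
    HasFDerivAt (fun u => ρ a u ^ 2 / 2) L b ∧
      ∀ e, |L e| ≤ ρ a b * (g₁ (‖b‖⁻¹ • b) + g₂ (‖b‖⁻¹ • b)) * (‖b‖⁻¹ * ‖e‖) := by
  have ha' := inv_ne_zero (norm_ne_zero_iff.2 ha)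
  have hb' := inv_ne_zero (norm_ne_zero_iff.2 hb)
  obtain ⟨L, hL, hle⟩ := h.der _ _ (unit ha) (unit hb)
  have h1 : HasFDerivAt (fun u : E => ‖b‖⁻¹ • u) (‖b‖⁻¹ • ContinuousLinearMap.id ℝ E) b :=
    (hasFDerivAt_id b).const_smul _
  refine ⟨_, (HasFDerivAt.comp b (f := fun u : E => ‖b‖⁻¹ • u) hL h1).congr_of_eventuallyEq ?_,
    fun e => ?_⟩
  · filter_upwards [isOpen_ne.mem_nhds hb] with u hu
    simp only [Function.comp]
    rw [h.hom _ _ a u ha' hb' ha hu]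
  · have h2 := hle (‖b‖⁻¹ • e)
    rw [h.hom _ _ a b ha' hb' ha hb, norm_smul, norm_inv, norm_norm] at h2
    exact h2

theorem cont {a : E} (ha : a ≠ 0) : ContinuousOn (fun u => ρ a u ^ 2) {0}ᶜ := fun b hb => by
  obtain ⟨L, hL, -⟩ := h.der' ha hb
  have h1 := hL.continuousAt.mul (continuousAt_const (y := (2 : ℝ)))
  refine (h1.congr (.of_forall fun u => ?_)).continuousWithinAt
  simp

theorem cmj : ContinuousOn (mj g₁ g₂ D) {0}ᶜ := by
  have h1 : ContinuousOn (fun z : E => ‖z‖⁻¹ • z) {0}ᶜ :=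
    (continuous_norm.continuousOn.inv₀ fun z hz => norm_ne_zero_iff.2 hz).smul continuousOn_id
  have h2 : MapsTo (fun z : E => ‖z‖⁻¹ • z) {0}ᶜ (sphere 0 1) := fun z hz =>
    mem_sphere_zero_iff_norm.2 (unit hz)
  exact continuousOn_const.mul (((h.c1.comp h1 h2).pow 2).add
    (continuousOn_const.mul (h.c2.comp h1 h2)))

theorem pmj {z : E} (hz : z ≠ 0) : 0 ≤ mj g₁ g₂ D z := by
  have h1 := h.p2 _ (unit hz)
  have h2 := (h.pos z z hz hz).trans (h.le z z hz hz)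
  unfold mj
  positivity

theorem path {x u : E} (hx : ‖x‖ ∈ Ioo (1 : ℝ) 2) (hu : ‖u‖ ∈ Ioo (1 : ℝ) 2) (hp : 0 ≤ ⟪x, u⟫) :
    ENNReal.ofReal (ρ x u ^ 2) ≤ 6 * ∫⁻ t in Ioc (0 : ℝ) 1, {z : E | ‖z‖ ∈ Iio (2 : ℝ)}.indicator
      (fun z => ENNReal.ofReal (mj g₁ g₂ D z)) ((1 - t) • x + t • u) := by
  have hx0 : x ≠ 0 := norm_pos_iff.1 (by linarith [hx.1])
  have hlo : ∀ t ∈ Icc (0 : ℝ) 1, 1 / 2 ≤ ‖(1 - t) • x + t • u‖ := by
    intro t ht
    have h1 : 0 ≤ 1 - t := sub_nonneg.2 ht.2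
    refine (pow_le_pow_iff_left₀ (by norm_num) (norm_nonneg _) two_ne_zero).1 ?_
    rw [norm_add_sq_real, norm_smul, norm_smul, real_inner_smul_left, real_inner_smul_right,
      Real.norm_of_nonneg h1, Real.norm_of_nonneg ht.1]
    have h2 : 1 - t ≤ (1 - t) * ‖x‖ := le_mul_of_one_le_right h1 hx.1.le
    have h3 : t ≤ t * ‖u‖ := le_mul_of_one_le_right ht.1 hu.1.le
    have h4 := pow_le_pow_left₀ h1 h2 2
    have h5 := pow_le_pow_left₀ ht.1 h3 2
    have h6 := mul_nonneg h1 (mul_nonneg ht.1 hp)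
    nlinarith [sq_nonneg (2 * t - 1)]
  have hne : ∀ t ∈ Icc (0 : ℝ) 1, (1 - t) • x + t • u ≠ 0 := fun t ht =>
    norm_pos_iff.1 (by linarith [hlo t ht])
  have hhi : ∀ t ∈ Icc (0 : ℝ) 1, ‖(1 - t) • x + t • u‖ < 2 := by
    intro t ht
    have := (convex_ball (0 : E) 2) (mem_ball_zero_iff.2 hx.2) (mem_ball_zero_iff.2 hu.2)
      (sub_nonneg.2 ht.2) ht.1 (by ring)
    exact mem_ball_zero_iff.1 this
  have hc : ∀ t : ℝ, HasDerivAt (fun t : ℝ => (1 - t) • x + t • u) (u - x) t := by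
    intro t
    have h1 := (((hasDerivAt_id t).const_sub 1).smul_const x).add ((hasDerivAt_id t).smul_const u)
    rw [neg_one_smul, one_smul, neg_add_eq_sub] at h1
    exact h1
  have hd : ∀ t ∈ Icc (0 : ℝ) 1, ∃ d, HasDerivAt
      (fun t : ℝ => Real.exp (-t) * (ρ x ((1 - t) • x + t • u) ^ 2 / 2)) d t ∧
        d ≤ mj g₁ g₂ D ((1 - t) • x + t • u) := by
    intro t ht
    obtain ⟨L, hL, hle⟩ := h.der' hx0 (hne t ht)
    have h1 := HasFDerivAt.comp_hasDerivAt t (f := fun t : ℝ => (1 - t) • x + t • u) hL (hc t)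
    refine ⟨_, (hasDerivAt_neg t).exp.mul h1, ?_⟩
    have h2 := hle (u - x)
    have h3 := h.pmj (hne t ht)
    have h4 := h.pos _ _ hx0 (hne t ht)
    have h5 := h.le _ _ hx0 (hne t ht)
    have h6 := h.p2 _ (unit (hne t ht))
    have h7 : ‖(1 - t) • x + t • u‖⁻¹ * ‖u - x‖ ≤ 8 := by
      have h8 : ‖(1 - t) • x + t • u‖⁻¹ ≤ 2 := by
        rw [inv_le_comm₀ (by linarith [hlo t ht]) two_pos]
        linarith [hlo t ht]
      have h9 : ‖u - x‖ ≤ 4 := (norm_sub_le _ _).trans (by linarith [hx.2, hu.2])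
      have := mul_le_mul h8 h9 (norm_nonneg _) zero_le_two
      linarith
    have h10 : 0 ≤ ‖(1 - t) • x + t • u‖⁻¹ * ‖u - x‖ := by positivity
    have he0 := Real.exp_pos (-t)
    have he1 : Real.exp (-t) ≤ 1 := Real.exp_le_one_iff.2 (by linarith [ht.1])
    unfold mj at h3 ⊢
    generalize ρ x ((1 - t) • x + t • u) = r at *
    generalize g₁ (‖(1 - t) • x + t • u‖⁻¹ • ((1 - t) • x + t • u)) = p at *
    generalize g₂ (‖(1 - t) • x + t • u‖⁻¹ • ((1 - t) • x + t • u)) = q at *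
    generalize ‖(1 - t) • x + t • u‖⁻¹ * ‖u - x‖ = k at *
    have h11 : L (u - x) - r ^ 2 / 2 ≤ 32 * (p ^ 2 + D * q) := by
      have a1 := le_abs_self (L (u - x))
      have a2 : r * q * k ≤ D * q * 8 :=
        mul_le_mul (mul_le_mul_of_nonneg_right h5 h6) h7 h10 (mul_nonneg (h4.trans h5) h6)
      have a3 : r * p * k ≤ r ^ 2 / 2 + 32 * p ^ 2 := by
        have a4 : k ^ 2 ≤ 8 ^ 2 := pow_le_pow_left₀ h10 h7 2
        nlinarith [sq_nonneg (r - p * k), mul_le_mul_of_nonneg_left a4 (sq_nonneg p)]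
      have a5 := mul_nonneg (h4.trans h5) h6
      nlinarith
    have h12 := mul_le_mul_of_nonneg_left h11 he0.le
    have h13 := mul_le_of_le_one_left h3 he1
    nlinarith
  have hcm : ContinuousOn (fun t : ℝ => mj g₁ g₂ D ((1 - t) • x + t • u)) (Icc 0 1) :=
    h.cmj.comp (fun t _ => (hc t).continuousAt.continuousWithinAt) hne
  have hI := intervalIntegral.sub_le_integral_of_hasDeriv_right_of_le zero_le_one
    (g' := deriv fun t : ℝ => Real.exp (-t) * (ρ x ((1 - t) • x + t • u) ^ 2 / 2))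
    (fun t ht => (hd t ht).choose_spec.1.continuousAt.continuousWithinAt)
    (fun t ht => (hd t (Ioo_subset_Icc_self ht)).choose_spec.1.differentiableAt.hasDerivAt
      |>.hasDerivWithinAt) hcm.integrableOn_Icc (fun t ht => by
        obtain ⟨d, h1, h2⟩ := hd t (Ioo_subset_Icc_self ht)
        rwa [h1.deriv])
  simp only [sub_self, zero_smul, one_smul, zero_add, sub_zero, add_zero, h.self x hx0] at hI
  rw [intervalIntegral.integral_of_le zero_le_one] at hI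
  have hE : ∫⁻ t in Ioc (0 : ℝ) 1, {z : E | ‖z‖ ∈ Iio (2 : ℝ)}.indicator
      (fun z => ENNReal.ofReal (mj g₁ g₂ D z)) ((1 - t) • x + t • u) =
      ENNReal.ofReal (∫ t in Ioc (0 : ℝ) 1, mj g₁ g₂ D ((1 - t) • x + t • u)) := by
    rw [ofReal_integral_eq_lintegral_ofReal (hcm.integrableOn_Icc.mono_set Ioc_subset_Icc_self)
      ((ae_restrict_mem measurableSet_Ioc).mono fun t ht =>
        h.pmj (hne t (Ioc_subset_Icc_self ht)))]
    refine setLIntegral_congr_fun measurableSet_Ioc fun t ht => ?_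
    exact indicator_of_mem (s := {z : E | ‖z‖ ∈ Iio (2 : ℝ)}) (hhi t (Ioc_subset_Icc_self ht)) _
  rw [hE, ← ENNReal.ofReal_ofNat, ← ENNReal.ofReal_mul (by norm_num)]
  refine ENNReal.ofReal_le_ofReal ?_
  have e1 : Real.exp (-1) * Real.exp 1 = 1 := by rw [← Real.exp_add]; simp
  have e2 := Real.exp_one_lt_d9
  have e3 := Real.exp_pos (-1)
  have e4 : 1 / 3 ≤ Real.exp (-1) := by nlinarith
  nlinarith [sq_nonneg (ρ x u)]

end Dat

variable [FiniteDimensional ℝ E] [MeasurableSpace E] [BorelSpace E] [Nontrivial E]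

omit [Nontrivial E] in
theorem intg {f : E → ℝ} (hf : ContinuousOn f (sphere 0 1)) :
    Integrable (fun p : sphere (0 : E) 1 => f p) (volume : Measure E).toSphere :=
  (continuousOn_iff_continuous_domRestrict.1 hf).integrable_of_hasCompactSupport
    (HasCompactSupport.of_compactSpace _)

variable (E) in
/-- The inequality. -/
theorem poi : ∃ C : ℝ, 0 < C ∧ ∀ (ρ : E → E → ℝ) (g₁ g₂ : E → ℝ) (D : ℝ), Dat ρ g₁ g₂ D →
    ∃ a : E, ‖a‖ = 1 ∧ ∫ p : sphere (0 : E) 1, ρ a p ^ 2 ∂(volume : Measure E).toSphere ≤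
      C * (∫ p : sphere (0 : E) 1, g₁ p ^ 2 ∂(volume : Measure E).toSphere +
        D * ∫ p : sphere (0 : E) 1, g₂ p ∂(volume : Measure E).toSphere) := by
  obtain ⟨K₁, hK₁⟩ : ∃ K, K = Measure.volumeIoiPow (Module.finrank ℝ E - 1)
    (Subtype.val ⁻¹' Ioo (1 : ℝ) 2) := ⟨_, rfl⟩
  obtain ⟨K₂, hK₂⟩ : ∃ K, K = Measure.volumeIoiPow (Module.finrank ℝ E - 1)
    (Subtype.val ⁻¹' Iio (2 : ℝ)) := ⟨_, rfl⟩
  have hA : IsOpen {z : E | ‖z‖ ∈ Ioo (1 : ℝ) 2} := isOpen_Ioo.preimage continuous_norm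
  have hA0 : volume {z : E | ‖z‖ ∈ Ioo (1 : ℝ) 2} ≠ 0 := by
    obtain ⟨z, hz⟩ := exists_norm_eq E (show (0 : ℝ) ≤ 3 / 2 by norm_num)
    exact hA.measure_ne_zero _ ⟨z, by rw [mem_ofPred_eq, hz]; norm_num⟩
  have hA1 : volume {z : E | ‖z‖ ∈ Ioo (1 : ℝ) 2} ≠ ∞ :=
    ((measure_mono fun z hz => mem_ball_zero_iff.2 hz.2).trans_lt
      (measure_ball_lt_top (x := (0 : E)) (r := 2))).ne
  have k2 : K₂ ≠ ∞ := by
    have := Measure.volumeIoiPow_apply_Iio (Module.finrank ℝ E - 1) ⟨2, mem_Ioi.2 two_pos⟩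
    rw [hK₂]
    exact ne_of_eq_of_ne this ENNReal.ofReal_ne_top
  have k1 : K₁ ≠ ∞ := ne_top_of_le_ne_top k2 (by
    rw [hK₁, hK₂]; exact measure_mono fun r hr => hr.2)
  have k0 : K₁ ≠ 0 := by
    have := polar (E := E) (F := fun _ => 1) measurable_const (fun _ _ _ _ => rfl)
      (measurableSet_Ioo (a := (1 : ℝ)) (b := 2))
    rw [← hK₁, setLIntegral_const, one_mul] at this
    exact fun h => hA0 (by rw [this, h, mul_zero])
  have kp : 0 < K₁.toReal := ENNReal.toReal_pos k0 k1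
  refine ⟨12 * 2 ^ Module.finrank ℝ E * 32 * (K₂.toReal + 1) / K₁.toReal, by positivity,
    fun ρ g₁ g₂ D h => ?_⟩
  have hs : sphere (0 : E) 1 ⊆ {0}ᶜ := fun p hp h0 => by
    have h1 : p = 0 := h0
    simp [h1] at hp
  have hm : Measurable fun z => ENNReal.ofReal (mj g₁ g₂ D z) :=
    (measurable_of_continuousOn_compl_singleton 0 h.cmj).ennreal_ofReal
  have hB : MeasurableSet {z : E | ‖z‖ ∈ Iio (2 : ℝ)} := measurable_norm measurableSet_Iio
  obtain ⟨x, hx, hle⟩ := mean (hm.indicator hB) hA0 hA1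
  have hx0 : x ≠ 0 := norm_pos_iff.1 (by linarith [hx.1])
  have hr : Measurable fun u => ENNReal.ofReal (ρ x u ^ 2) :=
    (measurable_of_continuousOn_compl_singleton 0 (h.cont hx0)).ennreal_ofReal
  have p1 := polar hr (fun r z hr hz => by
    have := h.hom 1 r x z one_ne_zero hr.ne' hx0 hz
    rw [one_smul] at this
    rw [this]) (measurableSet_Ioo (a := (1 : ℝ)) (b := 2))
  have p2 := polar hm (fun r z hr hz => by
    unfold mj
    rw [norm_smul, Real.norm_of_nonneg hr.le, smul_smul, mul_inv, mul_right_comm,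
      inv_mul_cancel₀ hr.ne', one_mul]) (measurableSet_Iio (a := (2 : ℝ)))
  rw [lintegral_indicator hB, p2, ← hK₂] at hle
  rw [← hK₁] at p1
  have i1 := intg ((h.cont hx0).mono hs)
  have i2 := intg (h.cmj.mono hs)
  rw [← ofReal_integral_eq_lintegral_ofReal i1 (.of_forall fun p => sq_nonneg _)] at p1
  rw [← ofReal_integral_eq_lintegral_ofReal i2 (.of_forall fun p => h.pmj (hs p.2))] at hle
  have hI := mul_le_mul_right hle 6
  rw [← lintegral_const_mul' _ _ (by norm_num)] at hI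
  have hJ := (setLIntegral_mono' (μ := volume) hA.measurableSet
    (f := fun u => ENNReal.ofReal (ρ x u ^ 2)) (fun u hu => by
      rcases le_total 0 ⟪x, u⟫ with hp | hp
      · exact (h.path hx hu hp).trans (mul_le_mul_right (lintegral_mono fun t => le_self_add) _)
      · have h1 := h.path (u := -u) hx (by rwa [norm_neg]) (by rw [inner_neg_right]; linarith)
        have h2 := h.hom 1 (-1) x u one_ne_zero (by norm_num) hx0
          (norm_pos_iff.1 (by linarith [hu.1]))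
        rw [one_smul, neg_one_smul] at h2
        rw [h2] at h1
        simp only [smul_neg, ← neg_smul] at h1
        exact h1.trans (mul_le_mul_right (lintegral_mono fun t => le_add_self) _))).trans hI
  rw [p1] at hJ
  have q0 : 0 ≤ ∫ p : sphere (0 : E) 1, mj g₁ g₂ D p ∂(volume : Measure E).toSphere :=
    integral_nonneg fun p => h.pmj (hs p.2)
  have hK := ENNReal.toReal_mono (by finiteness) hJ
  simp only [ENNReal.toReal_mul, ENNReal.toReal_ofNat] at hK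
  rw [ENNReal.toReal_ofReal (integral_nonneg fun p => sq_nonneg _),
    ENNReal.toReal_ofReal (by positivity), ENNReal.toReal_ofReal q0] at hK
  have q1 : ∫ p : sphere (0 : E) 1, mj g₁ g₂ D p ∂(volume : Measure E).toSphere =
      32 * (∫ p : sphere (0 : E) 1, g₁ p ^ 2 ∂(volume : Measure E).toSphere +
        D * ∫ p : sphere (0 : E) 1, g₂ p ∂(volume : Measure E).toSphere) := by
    rw [← integral_const_mul, ← integral_add (intg (f := fun z => g₁ z ^ 2) (h.c1.pow 2))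
      ((intg h.c2).const_mul D), ← integral_const_mul]
    refine integral_congr_ae (.of_forall fun p => ?_)
    simp only [mj, mem_sphere_zero_iff_norm.1 p.2, inv_one, one_smul]
  refine ⟨‖x‖⁻¹ • x, unit hx0, ?_⟩
  have q2 : ∀ p : sphere (0 : E) 1, ρ (‖x‖⁻¹ • x) p = ρ x p := fun p => by
    have := h.hom ‖x‖⁻¹ 1 x p (inv_ne_zero (norm_ne_zero_iff.2 hx0)) one_ne_zero hx0 (hs p.2)
    rwa [one_smul] at this
  simp only [q2]
  rw [q1] at hK q0
  rw [div_mul_eq_mul_div, le_div_iff₀ kp]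
  have q3 : (0 : ℝ) < 2 ^ Module.finrank ℝ E := by positivity
  nlinarith [mul_nonneg q3.le q0]

end Pool.Agent.MP_3ee8cb_gt.DNP
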