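import Pool.Agent.MP_3ee8cb_gt.DN.Spec2
import Pool.Agent.MP_3ee8cb_gt.DNP.Poi

/-! The Poincare inequality in the form used by the main theorem. -/

namespace Pool.Agent.MP_3ee8cb_gt.DN

variable [Dim]

open Set Metric

theorem sPO : SPO := by
  have hN : Nontrivial V := inferInstanceAs (Nontrivial (EuclideanSpace ℝ (Fin (Dim.k + 3))))
  obtain ⟨C, hC, h⟩ := DNP.poi V
  refine ⟨C, hC.le, fun ρ g hρ hg _ hd => ?_⟩
  have hs : sphere (0 : V) 1 = {a | ‖a‖ = 1} := by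
    ext a
    exact mem_sphere_zero_iff_norm
  have hn : ∀ a : V, a ∈ sphere (0 : V) 1 → a ≠ 0 := fun a ha h0 => by simp [h0] at ha
  obtain ⟨D, hD⟩ := ((isCompact_sphere (0 : V) 1).prod
    (isCompact_sphere (0 : V) 1)).exists_bound_of_continuousOn
      (hρ.cont.mono fun q hq => ⟨hn _ hq.1, hn _ hq.2⟩)
  obtain ⟨u, hu, hle⟩ := h ρ g (fun _ => 0) D
    { pos := fun a b _ _ => hρ.pos a b
      le := fun a b ha hb => by
        rw [← hρ.hom ‖a‖⁻¹ ‖b‖⁻¹ a b (inv_ne_zero (norm_ne_zero_iff.2 ha))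
          (inv_ne_zero (norm_ne_zero_iff.2 hb)) ha hb]
        exact (le_abs_self _).trans (hD (‖a‖⁻¹ • a, ‖b‖⁻¹ • b)
          ⟨mem_sphere_zero_iff_norm.2 (DNP.unit ha), mem_sphere_zero_iff_norm.2 (DNP.unit hb)⟩)
      self := fun a _ => hρ.diag a
      hom := hρ.hom
      c1 := hs ▸ hg
      c2 := continuousOn_const
      p2 := fun _ _ => le_rfl
      der := fun a b ha hb => by
        obtain ⟨L, h1, h2⟩ := hd a b ha hb
        exact ⟨L, h1, fun e => by rw [add_zero, mul_assoc]; exact h2 e⟩ }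
  refine ⟨u, hu, ?_⟩
  rw [MeasureTheory.integral_zero, mul_zero, add_zero] at hle
  exact hle

end Pool.Agent.MP_3ee8cb_gt.DN
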