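import Pool.Agent.MP_3ee8cb_gt.DN.Spec2
import Pool.Agent.MP_3ee8cb_gt.DN.Top
import Pool.Agent.MP_3ee8cb_gt.DNC.Cov2
import Pool.Agent.MP_3ee8cb_gt.DNA.Alg

/-! The Poincare inequality in a homogeneous parameter. -/

namespace Pool.Agent.MP_3ee8cb_gt.DN

variable [Dim]

open Set Filter Topology MeasureTheory

namespace Pw

theorem sph_mono {f g : V → ℝ} (hf : ContinuousOn f {a | ‖a‖ = 1})
    (hg : ContinuousOn g {a | ‖a‖ = 1}) (h : ∀ a, ‖a‖ = 1 → f a ≤ g a) : sph f ≤ sph g :=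
  integral_mono (sph_int hf) (sph_int hg) fun a => h a (by simp)

theorem sph_mul (c : ℝ) (f : V → ℝ) : sph (fun a => c * f a) = c * sph f :=
  integral_const_mul _ _

theorem det_le {N M : V →L[ℝ] V} {K : ℝ} (hK : 0 ≤ K) (h : ∀ e, ‖N e‖ ≤ K * ‖M e‖) :
    |N.det| ≤ K ^ dm * |M.det| := by
  have h1 := DNA.det_le_sqrt N (K • M) 0 fun e => by
    have := pow_le_pow_left₀ (norm_nonneg _) (h e) 2
    simpa [norm_smul, abs_of_nonneg hK] using this
  have h2 : (K • M).det = K ^ dm * M.det := by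
    rw [ContinuousLinearMap.det, ContinuousLinearMap.toLinearMap_smul, LinearMap.det_smul,
      finrank_euclideanSpace_fin]
  simpa [h2, abs_mul, abs_of_nonneg hK] using h1

theorem ne0 {a : V} (ha : ‖a‖ = 1) : a ≠ 0 := norm_ne_zero_iff.1 (by rw [ha]; exact one_ne_zero)

end Pw

open Pw

theorem pw_of (po : SPO) (_ : SCOV) : SPW := by
  obtain ⟨C, C0, po⟩ := po
  intro K hK
  refine ⟨K ^ dm * (C * (K ^ 2 * K ^ dm)), by positivity, fun ξ N ρ g hξ hρ cN cg gr hb => ?_⟩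
  have r3 : 3 ≤ Module.finrank ℝ V := by simp [dm]
  have H : DNC.Hm ξ := ⟨hξ.c1, hξ.hom, fun a ha => DNA.det_ne_zero _ fun e he =>
    DNA.inj_of_det _ (hb a ha).1 e (norm_le_zero_iff.1 (by
      simpa [he] using ((hb a ha).2.2.2.2 e).1))⟩
  obtain ⟨W, hW, l, r, -⟩ := H.inv r3
  have nW : ∀ u, u ≠ 0 → ‖W u‖ ≠ 0 := fun u hu => norm_ne_zero_iff.2 (hW.ne hu)
  have un : ∀ u, u ≠ 0 → ‖‖W u‖⁻¹ • W u‖ = 1 := fun u hu => DNC.Rad.unit (hW.ne hu)
  have nx : ∀ u, ‖u‖ = 1 → ‖ξ (‖W u‖⁻¹ • W u)‖ = ‖W u‖⁻¹ := fun u hu => by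
    rw [H.hom _ _ (inv_ne_zero (nW u (ne0 hu))) (hW.ne (ne0 hu)), r u (ne0 hu), norm_smul, hu]
    simp
  have w1 : ∀ u, ‖u‖ = 1 → 1 ≤ ‖W u‖⁻¹ ∧ ‖W u‖⁻¹ ≤ K := fun u hu => by
    rw [← nx u hu]
    exact ⟨(hb _ (un u (ne0 hu))).2.2.1, (hb _ (un u (ne0 hu))).2.2.2.1⟩
  have cW : ContinuousOn W {a | a ≠ 0} := hW.c1.continuousOn
  have sub : {a : V | ‖a‖ = 1} ⊆ {a | a ≠ 0} := fun a ha => ne0 ha
  have ci : ContinuousOn (fun u => ‖W u‖⁻¹) {a | ‖a‖ = 1} :=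
    (cW.mono sub).norm.inv₀ fun u hu => nW u (ne0 hu)
  have cn : ContinuousOn (fun u => ‖W u‖⁻¹ • W u) {a | ‖a‖ = 1} := ci.smul (cW.mono sub)
  have cgn : ContinuousOn (fun u => g (‖W u‖⁻¹ • W u)) {a | ‖a‖ = 1} :=
    cg.comp cn fun u hu => un u (ne0 hu)
  have T : Two fun u v => if u ≠ 0 ∧ v ≠ 0 then ρ (W u) (W v) else 0 := by
    refine ⟨?_, fun a b => ?_, fun a => ?_, fun s t a b hs ht ha hb => ?_⟩
    · refine ContinuousOn.congr (f := fun q : V × V => ρ (W q.1) (W q.2)) ?_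
        fun q hq => if_pos hq
      exact hρ.cont.comp (f := fun q : V × V => (W q.1, W q.2))
        ((cW.comp continuousOn_fst fun q hq => hq.1).prodMk
          (cW.comp continuousOn_snd fun q hq => hq.2)) fun q hq => ⟨hW.ne hq.1, hW.ne hq.2⟩
    · split_ifs
      exacts [hρ.pos _ _, le_rfl]
    · split_ifs
      exacts [hρ.diag _, rfl]
    · rw [if_pos ⟨smul_ne_zero hs ha, smul_ne_zero ht hb⟩, if_pos ⟨ha, hb⟩, hW.hom _ _ hs ha,
        hW.hom _ _ ht hb, hρ.hom _ _ _ _ hs ht (hW.ne ha) (hW.ne hb)]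
  have G : Grd (fun u v => if u ≠ 0 ∧ v ≠ 0 then ρ (W u) (W v) else 0)
      fun a e => K * g (‖W a‖⁻¹ • W a) * ‖e‖ := by
    intro a b ha hb'
    have a0 := ne0 ha
    have b0 := ne0 hb'
    obtain ⟨D, hD, bd⟩ := gr _ _ (un a a0) (un b b0)
    have e1 : ∀ u, u ≠ 0 → ρ (‖W a‖⁻¹ • W a) (‖W b‖⁻¹ • W u) = ρ (W a) (W u) := fun u hu =>
      hρ.hom _ _ _ _ (inv_ne_zero (nW a a0)) (inv_ne_zero (nW b b0)) (hW.ne a0) (hW.ne hu)
    have d1 : HasFDerivAt (fun u => ‖W b‖⁻¹ • W u) (‖W b‖⁻¹ • fderiv ℝ W b) b :=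
      (hW.dat b0).const_smul ‖W b‖⁻¹
    refine ⟨D.comp (‖W b‖⁻¹ • fderiv ℝ W b), (hD.comp b d1).congr_of_eventuallyEq ?_, fun e => ?_⟩
    · filter_upwards [DNC.op0.mem_nhds b0] with u hu
      simp only [Function.comp_apply]
      rw [if_pos ⟨a0, hu⟩, e1 u hu]
    · have id1 : (fderiv ℝ ξ (W b)).comp (fderiv ℝ W b) = .id ℝ V := by
        refine ((H.dat (hW.ne b0)).comp b (hW.dat b0)).unique
          ((hasFDerivAt_id b).congr_of_eventuallyEq ?_)
        filter_upwards [DNC.op0.mem_nhds b0] with u hu using r u hu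
      have id2 : fderiv ℝ ξ (‖W b‖⁻¹ • W b) (‖W b‖⁻¹ • fderiv ℝ W b e) = ‖W b‖⁻¹ • e := by
        rw [H.fd (hW.ne b0) (inv_ne_zero (nW b b0)), map_smul]
        exact congrArg _ (congrArg (fun L : V →L[ℝ] V => L e) id1)
      have h1 := ((hb _ (un b b0)).2.2.2.2 (‖W b‖⁻¹ • fderiv ℝ W b e)).1
      rw [id2, norm_smul, norm_inv, norm_norm] at h1
      have h2 := h1.trans (mul_le_mul_of_nonneg_right (w1 b hb').2 (norm_nonneg e))
      have h3 := bd (‖W b‖⁻¹ • fderiv ℝ W b e)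
      rw [e1 b b0] at h3
      simp only [if_pos (And.intro a0 b0)]
      refine h3.trans (mul_le_mul_of_nonneg_left ?_ (hρ.pos _ _))
      have g0 := (hb _ (un b b0)).2.1
      calc _ ≤ g (‖W b‖⁻¹ • W b) * (K * ‖e‖) := mul_le_mul_of_nonneg_left h2 g0
        _ = _ := by ring
  obtain ⟨u, hu, key⟩ := po _ (fun a => K * g (‖W a‖⁻¹ • W a)) T (continuousOn_const.mul cgn)
    (fun a ha => mul_nonneg hK.le (hb _ (un a (ne0 ha))).2.1) G
  have u0 := ne0 hu
  refine ⟨_, un u u0, ?_⟩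
  have cd : ContinuousOn (fun a => |(fderiv ℝ ξ a).det|) {a | ‖a‖ = 1} :=
    (ContinuousLinearMap.continuous_det.comp_continuousOn
      ((hξ.c1.continuousOn_fderiv_of_isOpen DNC.op0 le_rfl).mono sub)).abs
  have cdN : ContinuousOn (fun a => |(N a).det|) {a | ‖a‖ = 1} :=
    (ContinuousLinearMap.continuous_det.comp_continuousOn cN).abs
  have cr : ContinuousOn (fun a => ρ (‖W u‖⁻¹ • W u) a ^ 2) {a | ‖a‖ = 1} :=
    (hρ.cont.comp (f := fun a : V => (‖W u‖⁻¹ • W u, a)) (by fun_prop)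
      fun a ha => ⟨ne0 (un u u0), ne0 ha⟩).pow 2
  have cp : ContinuousOn (fun v => (‖W v‖ ^ dm)⁻¹) {a | ‖a‖ = 1} :=
    (ci.pow dm).congr fun v _ => (inv_pow _ _).symm
  have cov : ∀ f : V → ℝ, sph (fun a => |(fderiv ℝ ξ a).det| * f a) =
      sph fun v => (‖W v‖ ^ dm)⁻¹ * f (‖W v‖⁻¹ • W v) := fun f => by
    have := H.cov_inv volume r3 hW l f
    rw [finrank_euclideanSpace_fin] at this
    exact this
  have cT : ContinuousOn (fun v => (if u ≠ 0 ∧ v ≠ 0 then ρ (W u) (W v) else 0) ^ 2)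
      {a | ‖a‖ = 1} :=
    (T.cont.comp (f := fun a : V => (u, a)) (by fun_prop) fun a ha => ⟨u0, ne0 ha⟩).pow 2
  calc _ ≤ sph fun a => |(fderiv ℝ ξ a).det| * ρ (‖W u‖⁻¹ • W u) a ^ 2 :=
        sph_mono (cdN.mul cr) (cd.mul cr) fun a ha => mul_le_mul_of_nonneg_right (by
          simpa using det_le zero_le_one fun e => by
            simpa using ((hb a ha).2.2.2.2 e).1) (sq_nonneg _)
    _ ≤ sph fun v => K ^ dm * (if u ≠ 0 ∧ v ≠ 0 then ρ (W u) (W v) else 0) ^ 2 := by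
        rw [cov]
        refine sph_mono (cp.mul (cr.comp cn fun v hv => un v (ne0 hv)))
          (continuousOn_const.mul cT) fun v hv => ?_
        rw [if_pos ⟨u0, ne0 hv⟩, hρ.hom _ _ _ _ (inv_ne_zero (nW u u0))
          (inv_ne_zero (nW v (ne0 hv))) (hW.ne u0) (hW.ne (ne0 hv)), ← inv_pow]
        exact mul_le_mul_of_nonneg_right
          (pow_le_pow_left₀ (by positivity) (w1 v hv).2 _) (sq_nonneg _)
    _ ≤ K ^ dm * (C * sph fun a => (K * g (‖W a‖⁻¹ • W a)) ^ 2) := by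
        rw [sph_mul]
        exact mul_le_mul_of_nonneg_left key (by positivity)
    _ ≤ K ^ dm * (C * (K ^ 2 * (K ^ dm * sph fun a => |(N a).det| * g a ^ 2))) := by
        refine mul_le_mul_of_nonneg_left (mul_le_mul_of_nonneg_left ?_ C0) (by positivity)
        calc _ ≤ sph fun v => K ^ 2 * ((‖W v‖ ^ dm)⁻¹ * g (‖W v‖⁻¹ • W v) ^ 2) := by
              refine sph_mono ((continuousOn_const.mul cgn).pow 2)
                (continuousOn_const.mul (cp.mul (cgn.pow 2))) fun v hv => ?_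
              rw [mul_pow, ← inv_pow]
              exact mul_le_mul_of_nonneg_left (le_mul_of_one_le_left (sq_nonneg _)
                (one_le_pow₀ (w1 v hv).1)) (sq_nonneg _)
          _ = K ^ 2 * sph fun a => |(fderiv ℝ ξ a).det| * g a ^ 2 := by
              rw [sph_mul, cov fun a => g a ^ 2]
          _ ≤ _ := by
              refine mul_le_mul_of_nonneg_left ?_ (sq_nonneg _)
              rw [← sph_mul]
              refine sph_mono (cd.mul (cg.pow 2))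
                (continuousOn_const.mul (cdN.mul (cg.pow 2))) fun a ha => ?_
              rw [← mul_assoc]
              exact mul_le_mul_of_nonneg_right
                (det_le hK.le fun e => ((hb a ha).2.2.2.2 e).2) (sq_nonneg _)
    _ = _ := by ring

end Pool.Agent.MP_3ee8cb_gt.DN
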