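import Mathlib

/-! A crude Poincare inequality on spheres: measure theoretic kit. -/

namespace Pool.Agent.MP_3ee8cb_gt.DNP

open Set MeasureTheory Metric
open scoped ENNReal

variable {E : Type} [NormedAddCommGroup E] [InnerProductSpace ℝ E] [FiniteDimensional ℝ E]
  [MeasurableSpace E] [BorelSpace E] [Nontrivial E]

theorem polar {F : E → ℝ≥0∞} (hF : Measurable F) (hh : ∀ (r : ℝ) z, 0 < r → z ≠ 0 →
    F (r • z) = F z) {s : Set ℝ} (hs : MeasurableSet s) :
    ∫⁻ z in {z : E | ‖z‖ ∈ s}, F z = (∫⁻ p : sphere (0 : E) 1, F p ∂(volume : Measure E).toSphere) *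
      Measure.volumeIoiPow (Module.finrank ℝ E - 1) (Subtype.val ⁻¹' s) := by
  have hs' : MeasurableSet {z : E | ‖z‖ ∈ s} := measurable_norm hs
  have hs2 : MeasurableSet (Subtype.val ⁻¹' s : Set (Ioi (0 : ℝ))) := measurable_subtype_coe hs
  have hm : Measurable fun x : sphere (0 : E) 1 × Ioi (0 : ℝ) =>
      F x.1 * (Subtype.val ⁻¹' s : Set (Ioi (0 : ℝ))).indicator 1 x.2 :=
    (hF.comp (measurable_subtype_coe.comp measurable_fst)).mul
      ((measurable_one.indicator hs2).comp measurable_snd)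
  calc ∫⁻ z in {z : E | ‖z‖ ∈ s}, F z
      = ∫⁻ x : ({0}ᶜ : Set E), {z : E | ‖z‖ ∈ s}.indicator F x.1
          ∂((volume : Measure E).comap (↑)) := by
        rw [lintegral_subtype_comap (measurableSet_singleton _).compl
          fun v => {z : E | ‖z‖ ∈ s}.indicator F v, restrict_compl_singleton,
          lintegral_indicator hs']
    _ = ∫⁻ x : sphere (0 : E) 1 × Ioi (0 : ℝ),
          F x.1 * (Subtype.val ⁻¹' s : Set (Ioi (0 : ℝ))).indicator 1 x.2
          ∂(volume : Measure E).toSphere.prod (.volumeIoiPow (Module.finrank ℝ E - 1)) := by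
        rw [← (volume : Measure E).measurePreserving_homeomorphUnitSphereProd.lintegral_comp hm]
        refine lintegral_congr fun x => ?_
        have hx : 0 < ‖x.1‖⁻¹ := inv_pos.2 (norm_pos_iff.2 x.2)
        simp only [homeomorphUnitSphereProd_apply_fst_coe]
        rw [hh _ _ hx x.2]
        by_cases h : ‖x.1‖ ∈ s
        · rw [indicator_of_mem (show x.1 ∈ {z : E | ‖z‖ ∈ s} from h), indicator_of_mem
            (by rw [mem_preimage, homeomorphUnitSphereProd_apply_snd_coe]; exact h)]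
          simp
        · rw [indicator_of_notMem (show x.1 ∉ {z : E | ‖z‖ ∈ s} from h),
            indicator_of_notMem
            (by rw [mem_preimage, homeomorphUnitSphereProd_apply_snd_coe]; exact h)]
          simp
    _ = _ := by
        rw [lintegral_prod_mul (f := fun p : sphere (0 : E) 1 => F p)
          (hF.comp measurable_subtype_coe).aemeasurable
          (measurable_one.indicator hs2).aemeasurable, lintegral_indicator_one hs2]

omit [Nontrivial E] in
theorem scale {Φ : E → ℝ≥0∞} (hΦ : Measurable Φ) (v : E) {r : ℝ} (hr : 1 / 2 ≤ |r|) :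
    ∫⁻ u, Φ (v + r • u) ≤ ENNReal.ofReal (2 ^ Module.finrank ℝ E) * ∫⁻ z, Φ z := by
  have h0 : r ≠ 0 := fun h => by
    rw [h, abs_zero] at hr
    linarith
  have h1 : Measurable fun z => Φ (v + z) := hΦ.comp (measurable_const_add v)
  have h2 := lintegral_map (μ := (volume : Measure E)) h1 (measurable_const_smul r)
  rw [Measure.map_addHaar_smul _ h0, lintegral_smul_measure, lintegral_add_left_eq_self] at h2
  rw [← h2, smul_eq_mul]
  refine mul_le_mul_left (ENNReal.ofReal_le_ofReal ?_) _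
  rw [abs_inv, abs_pow, ← inv_pow]
  refine pow_le_pow_left₀ (by positivity) ?_ _
  rw [inv_le_comm₀ (by linarith) two_pos]
  linarith

omit [Nontrivial E] in
theorem pair {Φ : E → ℝ≥0∞} (hΦ : Measurable Φ) (A : Set E) {p q : ℝ}
    (h : 1 / 2 ≤ |p| ∨ 1 / 2 ≤ |q|) : ∫⁻ x in A, ∫⁻ u in A, Φ (p • x + q • u) ≤
      ENNReal.ofReal (2 ^ Module.finrank ℝ E) * (∫⁻ z, Φ z) * volume A := by
  have key : ∀ p q : ℝ, 1 / 2 ≤ |q| → ∫⁻ x in A, ∫⁻ u in A, Φ (p • x + q • u) ≤
      ENNReal.ofReal (2 ^ Module.finrank ℝ E) * (∫⁻ z, Φ z) * volume A := by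
    intro p q hq
    rw [← setLIntegral_const]
    exact lintegral_mono fun x => (setLIntegral_le_lintegral _ _).trans (scale hΦ _ hq)
  rcases h with h | h
  · have hm : Measurable (Function.uncurry fun x u : E => Φ (p • x + q • u)) :=
      hΦ.comp ((measurable_fst.const_smul p).add (measurable_snd.const_smul q))
    rw [lintegral_lintegral_swap hm.aemeasurable]
    simp only [add_comm (p • _)]
    exact key q p h
  · exact key p q h

omit [Nontrivial E] in
/-- Some point is below the mean. -/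
theorem mean {Φ : E → ℝ≥0∞} (hΦ : Measurable Φ) {A : Set E} (h0 : volume A ≠ 0)
    (h1 : volume A ≠ ∞) : ∃ x ∈ A, ∫⁻ u in A, ∫⁻ t in Ioc (0 : ℝ) 1,
      (Φ ((1 - t) • x + t • u) + Φ ((1 - t) • x + (-t) • u)) ≤
        2 * (ENNReal.ofReal (2 ^ Module.finrank ℝ E) * ∫⁻ z, Φ z) := by
  have hm : Measurable fun w : (E × ℝ) × E =>
      Φ ((1 - w.1.2) • w.1.1 + w.1.2 • w.2) + Φ ((1 - w.1.2) • w.1.1 + (-w.1.2) • w.2) :=
    (hΦ.comp (by fun_prop)).add (hΦ.comp (by fun_prop))
  have hJ : Measurable fun w : E × ℝ => ∫⁻ u in A,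
      (Φ ((1 - w.2) • w.1 + w.2 • u) + Φ ((1 - w.2) • w.1 + (-w.2) • u)) :=
    hm.lintegral_prod_right'
  have hK : Measurable fun x : E => ∫⁻ t in Ioc (0 : ℝ) 1, ∫⁻ u in A,
      (Φ ((1 - t) • x + t • u) + Φ ((1 - t) • x + (-t) • u)) := hJ.lintegral_prod_right'
  obtain ⟨x, hx, hle⟩ := exists_le_setLAverage h0 h1 hK.aemeasurable
  refine ⟨x, hx, ?_⟩
  have hm2 : Measurable (Function.uncurry fun (u : E) (t : ℝ) =>
      Φ ((1 - t) • x + t • u) + Φ ((1 - t) • x + (-t) • u)) :=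
    (hΦ.comp (by fun_prop)).add (hΦ.comp (by fun_prop))
  rw [lintegral_lintegral_swap hm2.aemeasurable]
  refine hle.trans ?_
  rw [setLAverage_eq]
  refine ENNReal.div_le_of_le_mul ?_
  rw [lintegral_lintegral_swap (f := fun (x : E) (t : ℝ) => ∫⁻ u in A,
    (Φ ((1 - t) • x + t • u) + Φ ((1 - t) • x + (-t) • u))) hJ.aemeasurable]
  have hb : ∀ t ∈ Ioc (0 : ℝ) 1, ∫⁻ x in A, ∫⁻ u in A,
      (Φ ((1 - t) • x + t • u) + Φ ((1 - t) • x + (-t) • u)) ≤
      2 * (ENNReal.ofReal (2 ^ Module.finrank ℝ E) * ∫⁻ z, Φ z) * volume A := by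
    intro t ht
    have ha : 1 / 2 ≤ |1 - t| ∨ 1 / 2 ≤ |t| := by
      rw [abs_of_nonneg (sub_nonneg.2 ht.2), abs_of_pos ht.1]
      rcases le_total t (1 / 2) with h | h
      · left; linarith
      · right; exact h
    have e1 : ∀ x : E, ∫⁻ u in A, (Φ ((1 - t) • x + t • u) + Φ ((1 - t) • x + (-t) • u)) =
        (∫⁻ u in A, Φ ((1 - t) • x + t • u)) + ∫⁻ u in A, Φ ((1 - t) • x + (-t) • u) :=
      fun x => lintegral_add_left (hΦ.comp (by fun_prop)) _
    have hm3 : Measurable fun w : E × E => Φ ((1 - t) • w.1 + t • w.2) := hΦ.comp (by fun_prop)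
    simp only [e1]
    rw [lintegral_add_left hm3.lintegral_prod_right', mul_assoc, two_mul]
    exact add_le_add (pair hΦ A ha) (pair hΦ A (by rwa [abs_neg]))
  refine (setLIntegral_mono' measurableSet_Ioc hb).trans ?_
  rw [setLIntegral_const]
  simp

end Pool.Agent.MP_3ee8cb_gt.DNP
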